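import Pool.Agent.W477.GM.Stms

/-!
# Project GM (MP_3ade05_lc): the twists
-/

set_option linter.all false
set_option maxHeartbeats 1000000

namespace Pool.Agent.W477.GM.SIG924

open Pool.Agent.W477.GM

section gen

variable {C : Type} {L : C → ℕ∞}

theorem fl_bit (z : J → Ordinal.{0} → Bool) (p : Cn C L) (j : J) (o : Ordinal.{0}) :
    (fl z p).bit j o = if o < p.len j then xor (p.bit j o) (z j o) else false := rfl

theorem fl_fl (z : J → Ordinal.{0} → Bool) (p : Cn C L) : fl z (fl z p) = p := by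
  refine Cn.ext' rfl (fun _ => rfl) fun j o ho => ?_
  have h1 : o < p.len j := ho
  have h2 : o < (fl z p).len j := ho
  rw [fl_bit, if_pos h2, fl_bit, if_pos h1]
  cases p.bit j o <;> cases z j o <;> rfl

theorem rs_eq_iff (K : J → Prop) (p : Cn C L) : rs K p = p ↔ ∀ j, ¬ K j → p.len j = 0 := by
  classical
  have hlen : ∀ j, (rs K p).len j = if K j then p.len j else 0 := fun j => by
    unfold rs
    simp only
  have hbit : ∀ j o, (rs K p).bit j o = if K j then p.bit j o else false := fun j o => by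
    unfold rs
    simp only
  constructor
  · intro h j hj
    have := hlen j
    rw [h, if_neg hj] at this
    exact this
  · intro h
    refine Cn.ext' rfl (fun j => ?_) fun j o ho => ?_
    · rw [hlen]
      split_ifs with hj
      · rfl
      · exact (h j hj).symm
    · rw [hbit]
      rw [hlen] at ho
      split_ifs at ho ⊢ with hj
      · rfl
      · exact absurd ho (not_lt.2 zero_le)

variable [PartialOrder C] [OrderTop C]

theorem fl_mono (z : J → Ordinal.{0} → Bool) {p q : Cn C L} (h : p ≤ q) : fl z p ≤ fl z q := by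
  rw [Cn.le_def] at h ⊢
  refine ⟨h.1, fun j => ⟨(h.2 j).1, fun o ho => ?_⟩⟩
  have h1 : o < q.len j := ho
  have h2 : o < p.len j := lt_of_lt_of_le h1 (h.2 j).1
  rw [fl_bit, fl_bit, if_pos h1, if_pos h2, (h.2 j).2 o h1]

/-- the flip as an automorphism -/
noncomputable def flI (z : J → Ordinal.{0} → Bool) : Cn C L ≃o Cn C L where
  toFun := fl z
  invFun := fl z
  left_inv := fl_fl z
  right_inv := fl_fl z
  map_rel_iff' := by
    intro p q
    constructor
    · intro h
      have := fl_mono z h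
      simp only [Equiv.coe_fn_mk, fl_fl] at this
      exact this
    · exact fun h => fl_mono z h

theorem flI_symm (z : J → Ordinal.{0} → Bool) (p : Cn C L) : (flI z).symm p = fl z p := rfl

theorem symm_of_flip {g : Cn C L ≃o Cn C L} {z : J → Ordinal.{0} → Bool}
    (h : ∀ p, g p = fl z p) (p : Cn C L) : g.symm p = fl z p := by
  rw [OrderIso.symm_apply_eq, h, fl_fl]

end gen

/-! ### the swap -/

theorem swp_fst (c : Str) (β : Ordinal.{0}) (j : J) : (swp c β j).1 = j.1 := by
  unfold swp
  split_ifs <;> rfl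

theorem swp_snd (c : Str) (β : Ordinal.{0}) (j : J) : (swp c β j).2.1 = j.2.1 := by
  unfold swp
  split_ifs <;> rfl

theorem swp_swp (c : Str) (β : Ordinal.{0}) (j : J) : swp c β (swp c β j) = j := by
  by_cases h : j.1 = β ∧ c.l.getD j.2.1 false = true
  · have h1 : swp c β j = (j.1, j.2.1, !j.2.2) := by
      unfold swp
      rw [if_pos h]
    rw [h1]
    unfold swp
    rw [if_pos h]
    simp
  · have h1 : swp c β j = j := by
      unfold swp
      rw [if_neg h]
    rw [h1, h1]

theorem swp_of_ne {c : Str} {β : Ordinal.{0}} {j : J} (h : j.1 ≠ β) : swp c β j = j := by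
  unfold swp
  rw [if_neg fun h1 => h h1.1]

theorem swp_inj (c : Str) (β : Ordinal.{0}) : Function.Injective (swp c β) :=
  Function.Involutive.injective (swp_swp c β)

theorem getD_of_le {c d : Str} (h : d ≤ c) {n : ℕ} (hn : n < c.l.length) :
    d.l.getD n false = c.l.getD n false := by
  have h1 : c.l <+: d.l := h
  obtain ⟨t, ht⟩ := h1
  rw [← ht, List.getD_append _ _ _ _ hn]

theorem swp_of_le {c d : Str} (h : d ≤ c) (β : Ordinal.{0}) {j : J}
    (hn : j.2.1 < c.l.length) : swp d β j = swp c β j := by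
  unfold swp
  rw [getD_of_le h hn]

/-- the twist of a condition -/
noncomputable def sg (β : Ordinal.{0}) (q : QQ) : QQ where
  c := q.c
  len j := q.len (swp q.c β j)
  bit j o := q.bit (swp q.c β j) o
  fin := Set.Finite.preimage (swp_inj q.c β).injOn q.fin
  lt j := by
    have := q.lt (swp q.c β j)
    rwa [swp_fst] at this
  off j o ho := q.off _ _ ho
  sup j hj := by
    have := q.sup (swp q.c β j) hj
    rwa [swp_snd] at this

theorem sg_sg (β : Ordinal.{0}) (q : QQ) : sg β (sg β q) = q := by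
  refine Cn.ext' rfl (fun j => ?_) fun j o _ => ?_
  · show q.len (swp q.c β (swp q.c β j)) = q.len j
    rw [swp_swp]
  · show q.bit (swp q.c β (swp q.c β j)) o = q.bit j o
    rw [swp_swp]

theorem sg_mono (β : Ordinal.{0}) {p q : QQ} (h : p ≤ q) : sg β p ≤ sg β q := by
  rw [Cn.le_def] at h ⊢
  refine ⟨h.1, fun j => ?_⟩
  show q.len (swp q.c β j) ≤ p.len (swp p.c β j) ∧ ∀ o, o < q.len (swp q.c β j) →
    p.bit (swp p.c β j) o = q.bit (swp q.c β j) o
  by_cases h0 : q.len (swp q.c β j) = 0
  · rw [h0]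
    exact ⟨zero_le, fun o ho => absurd ho (not_lt.2 zero_le)⟩
  · have h1 := q.sup _ h0
    rw [swp_snd] at h1
    have h2 : j.2.1 < q.c.l.length := by
      unfold slen at h1
      exact_mod_cast h1
    rw [swp_of_le h.1 β h2]
    exact h.2 _

/-- the twist -/
noncomputable def sgI (β : Ordinal.{0}) : QQ ≃o QQ where
  toFun := sg β
  invFun := sg β
  left_inv := sg_sg β
  right_inv := sg_sg β
  map_rel_iff' := by
    intro p q
    constructor
    · intro h
      have := sg_mono β h
      simp only [Equiv.coe_fn_mk, sg_sg] at this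
      exact this
    · exact fun h => sg_mono β h

theorem sgI_apply (β : Ordinal.{0}) (q : QQ) : sgI β q = sg β q := rfl
theorem sgI_symm (β : Ordinal.{0}) (q : QQ) : (sgI β).symm q = sg β q := rfl

theorem rho_sg {β a : Ordinal.{0}} {u : QQ} (h : SQ.rho a (sg β u) = sg β u) :
    SQ.rho a u = u := by
  have h1 := (rs_eq_iff _ _).1 h
  refine (rs_eq_iff _ _).2 fun j hj => ?_
  have h2 := h1 (swp u.c β j) (by rw [swp_fst]; exact hj)
  have h3 : (sg β u).len (swp u.c β j) = u.len j := by
    show u.len (swp u.c β (swp u.c β j)) = u.len j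
    rw [swp_swp]
  rw [← h3]
  exact h2

theorem sg_fix {β : Ordinal.{0}} {u : QQ} (h : ∀ j : J, ¬ j.1 < β → u.len j = 0) :
    sg β u = u := by
  have hz : ∀ j : J, j.1 = β → u.len j = 0 := fun j hj => h j (by rw [hj]; exact lt_irrefl _)
  refine Cn.ext' rfl (fun j => ?_) fun j o ho => ?_
  · show u.len (swp u.c β j) = u.len j
    by_cases hj : j.1 = β
    · rw [hz j hj, hz _ (by rw [swp_fst]; exact hj)]
    · rw [swp_of_ne hj]
  · show u.bit (swp u.c β j) o = u.bit j o
    by_cases hj : j.1 = β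
    · have h1 : (sg β u).len j = 0 := hz _ (by rw [swp_fst]; exact hj)
      rw [h1] at ho
      exact absurd ho (not_lt.2 zero_le)
    · rw [swp_of_ne hj]

theorem lift_fix (β : Ordinal.{0}) (x : Nm PP) (hx : Liv SP β x) :
    act (sgI β) (lift x) = lift x := by
  induction x with
  | mk ι U x ih =>
    obtain ⟨h1, h2⟩ := hx
    unfold lift act
    have hlab : ∀ (i : ι) (u : QQ), U i (pj u) → sg β u = u := by
      intro i u hu
      have h3 := h1 i _ hu
      exact sg_fix fun j hj => (rs_eq_iff _ _).1 h3 j hj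
    have e1 : (fun (i : ι) (u : QQ) => U i (pj ((sgI β).symm u))) =
        fun (i : ι) (u : QQ) => U i (pj u) := by
      funext i u
      rw [sgI_symm]
      refine propext ⟨fun h => ?_, fun h => ?_⟩
      · have h3 := hlab i _ h
        rw [sg_sg] at h3
        rwa [← h3] at h
      · rwa [hlab i u h]
    have e2 : (fun i => act (sgI β) (lift (x i))) = fun i => lift (x i) := by
      funext i
      exact ih i (h2 i)
    rw [e1, e2]

/-- shortening nothing, lengthening `c` -/
def wc (hc : CAx Str slen) (q : QQ) (d : Str) (hd : d ≤ q.c) : QQ where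
  c := d
  len := q.len
  bit := q.bit
  fin := q.fin
  lt := q.lt
  off := q.off
  sup j hj := lt_of_lt_of_le (q.sup j hj) (hc.anti _ _ hd)

theorem wc_le (hc : CAx Str slen) (q : QQ) (d : Str) (hd : d ≤ q.c) : wc hc q d hd ≤ q := by
  rw [Cn.le_def]
  exact ⟨hd, fun j => ⟨le_rfl, fun _ _ => rfl⟩⟩

theorem supp_sg (hE : EqF QQ) (hA : ActF QQ) (hc : CAx Str slen) (β : Ordinal.{0}) (X : Nm QQ)
    (e : Finset (Ordinal.{0} × ℕ)) (he : ∀ g, g ∈ SQ.fix e → ∀ p, feq (act g X) X p) :
    ∀ g, g ∈ SQ.fix e → ∀ p, feq (act g (act (sgI β) X)) (act (sgI β) X) p := by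
  rintro g ⟨z, hz1, hz2, hz3⟩ p
  refine hE.dense _ _ _ fun q _ => ?_
  -- a bound for the numbers
  obtain ⟨N, hN⟩ : ∃ N : ℕ, ∀ j : J, (∃ o, z j o = true) → j.2.1 < N := by
    have hfin : ((fun j : J => j.2.1) '' {j | ∃ o, z j o = true}).Finite := hz1.image _
    obtain ⟨N, hN⟩ := hfin.bddAbove
    exact ⟨N + 1, fun j hj => Nat.lt_succ_of_le (hN (Set.mem_image_of_mem _ hj))⟩
  obtain ⟨d, hd, hdN⟩ := hc.cof q.c N
  have hdl : N < d.l.length := by
    unfold slen at hdN
    exact_mod_cast hdN
  set r : QQ := wc hc q d hd with hr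
  refine ⟨r, wc_le hc q d hd, ?_⟩
  have hrc : r.c = d := rfl
  set s := sgI β with hs
  set g' : QQ ≃o QQ := s⁻¹ * g * s with hg'
  have e1 : act g (act s X) = act s (act g' X) := by
    rw [← hA.mul, ← hA.mul]
    congr 1
    rw [hg', ← mul_assoc, ← mul_assoc, mul_inv_cancel, one_mul]
  rw [e1]
  have e2 : s (s.symm r) = r := s.apply_symm_apply r
  rw [← e2, hA.feq]
  -- the local flip
  set z' : J → Ordinal.{0} → Bool := fun j => z (swp d β j) with hz'
  have hfz' : FinS z' := by
    have : {j | ∃ o, z' j o = true} = swp d β ⁻¹' {j | ∃ o, z j o = true} := rfl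
    unfold FinS
    rw [this]
    exact Set.Finite.preimage (swp_inj d β).injOn hz1
  have hmem : (flI z' : QQ ≃o QQ) ∈ SQ.fix e := by
    refine ⟨z', hfz', ?_, fun p => rfl⟩
    intro j hj o
    exact hz2 (swp d β j) (by rw [swp_fst, swp_snd]; exact hj) o
  have hloc : ∀ q', q' ≤ s.symm r → g'.symm q' = (flI z' : QQ ≃o QQ).symm q' := by
    intro q' hq'
    have hqc : q'.c ≤ d := hq'.1
    have e3 : g'.symm q' = sg β (fl z (sg β q')) := by
      rw [OrderIso.symm_apply_eq]
      show q' = s.symm (g (s (sg β (fl z (sg β q')))))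
      rw [hs, sgI_apply, sg_sg, hz3, fl_fl, sgI_symm, sg_sg]
    rw [e3, flI_symm]
    have hzz : ∀ (j : J) o, z (swp q'.c β j) o = z (swp d β j) o := by
      intro j o
      by_cases hj : j.2.1 < d.l.length
      · rw [swp_of_le hqc β hj]
      · have h0 : ∀ c : Str, z (swp c β j) o = false := by
          intro c
          by_contra hne
          have h1 := hN (swp c β j) ⟨o, by simpa using hne⟩
          rw [swp_snd] at h1
          omega
        rw [h0, h0]
    refine Cn.ext' rfl (fun j => ?_) fun j o ho => ?_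
    · show q'.len (swp q'.c β (swp q'.c β j)) = q'.len j
      rw [swp_swp]
    · show (if o < q'.len (swp q'.c β (swp q'.c β j)) then
          xor (q'.bit (swp q'.c β (swp q'.c β j)) o) (z (swp q'.c β j) o) else false) =
        if o < q'.len j then xor (q'.bit j o) (z' j o) else false
      rw [swp_swp, hzz]
  exact hE.trans _ _ _ _ (hA.loc g' (flI z') X _ hloc) (he _ hmem _)

theorem hs_sg (hE : EqF QQ) (hA : ActF QQ) (hc : CAx Str slen) (β : Ordinal.{0}) (X : Nm QQ)
    (hX : HS SQ X) : HS SQ (act (sgI β) X) := by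
  induction X with
  | mk ι U x ih =>
    obtain ⟨⟨a, h1⟩, ⟨e, h2⟩, h3⟩ := hX
    have h4 := supp_sg hE hA hc β (.mk ι U x) e h2
    unfold act at h4 ⊢
    refine ⟨⟨a, fun i u hu => ?_⟩, ⟨e, h4⟩, fun i => ih i (h3 i)⟩
    exact rho_sg (h1 i _ hu)

theorem sig_holds (h : P_EQ) (h1 : P_ACT) (h2 : P_LIFT) (h3 : P_HS) (hc : P_CAX) (hk : P_KAP)
    (hs : P_SYSC) : P_SIG := by
  intro β
  refine ⟨sgI β, fun q => ⟨rfl, fun j => ⟨rfl, fun o => rfl⟩⟩, ?_, ?_, ?_⟩
  · apply OrderIso.ext
    funext q
    exact sg_sg β q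
  · exact fun x hx => hs_sg (h QQ) (h1 QQ) hc.2 β x hx
  · exact fun x hx => lift_fix β x hx

end Pool.Agent.W477.GM.SIG924
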